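import Pool.Agent.N669.CQ.Stm

/-!
# Project CQ, part CPT: compactness, one constant (helper492)
-/

set_option autoImplicit false

namespace Pool.Agent.N492.CQ

open MeasureTheory Set TopologicalSpace Pool.Agent.N669.CQ

theorem conv_T0 : Convex ℝ T0 := convex_convexHull ℝ _

theorem int_T0 : (interior T0).Nonempty := by
  have h0 : ((0 : ℝ), (0 : ℝ)) ∈ T0 := subset_convexHull ℝ _ (by simp)
  have h1 : ((1 : ℝ), (0 : ℝ)) ∈ T0 := subset_convexHull ℝ _ (by simp)
  have h2 : ((0 : ℝ), (1 : ℝ)) ∈ T0 := subset_convexHull ℝ _ (by simp)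
  have hU : IsOpen {z : P | 0 < z.1 ∧ 0 < z.2 ∧ z.1 + z.2 < 1} :=
    (isOpen_lt continuous_const continuous_fst).inter
      ((isOpen_lt continuous_const continuous_snd).inter
        (isOpen_lt (continuous_fst.add continuous_snd) continuous_const))
  have hs : {z : P | 0 < z.1 ∧ 0 < z.2 ∧ z.1 + z.2 < 1} ⊆ T0 := by
    rintro ⟨x, y⟩ ⟨hx, hy, hxy⟩
    simp only at hx hy hxy
    have hp : 0 < x + y := add_pos hx hy
    have h3 := conv_T0 h1 h2 (div_nonneg hx.le hp.le) (div_nonneg hy.le hp.le)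
      (by rw [← add_div, div_self hp.ne'])
    have h4 := conv_T0 h0 h3 (sub_nonneg.2 hxy.le) hp.le (by ring)
    have h5 : ((1 - (x + y)) • ((0 : ℝ), (0 : ℝ)) + (x + y) •
        ((x / (x + y)) • ((1 : ℝ), (0 : ℝ)) + (y / (x + y)) • ((0 : ℝ), (1 : ℝ))) : P) = (x, y) := by
      ext
      · simp
        field_simp
      · simp
        field_simp
    rw [h5] at h4
    exact h4
  exact ⟨(1 / 4, 1 / 4), interior_maximal hs hU ⟨by norm_num, by norm_num, by norm_num⟩⟩

theorem closed_conv : IsClosed {L : NonemptyCompacts P | Convex ℝ (L : Set P)} := by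
  refine isClosed_of_closure_subset fun L hL => ?_
  rw [Metric.mem_closure_iff] at hL
  intro x hx y hy a b ha hb hab
  have hcl : IsClosed (L : Set P) := L.isCompact.isClosed
  rw [← hcl.closure_eq, Metric.mem_closure_iff]
  intro ε hε
  obtain ⟨L', hL', hd⟩ := hL (ε / 2) (half_pos hε)
  have hfin : Metric.hausdorffEDist (L : Set P) (L' : Set P) ≠ ⊤ :=
    Metric.hausdorffEDist_ne_top_of_nonempty_of_bounded L.nonempty L'.nonempty
      L.isCompact.isBounded L'.isCompact.isBounded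
  have hd' : Metric.hausdorffDist (L : Set P) (L' : Set P) < ε / 2 := hd
  obtain ⟨x', hx', hxd⟩ := Metric.exists_dist_lt_of_hausdorffDist_lt hx hd' hfin
  obtain ⟨y', hy', hyd⟩ := Metric.exists_dist_lt_of_hausdorffDist_lt hy hd' hfin
  obtain ⟨z, hz, hzd⟩ := Metric.exists_dist_lt_of_hausdorffDist_lt' (hL' hx' hy' ha hb hab) hd' hfin
  refine ⟨z, hz, ?_⟩
  have h1 : dist (a • x + b • y) (a • x' + b • y') ≤ ε / 2 := by
    rw [dist_eq_norm]
    have h2 : a • x + b • y - (a • x' + b • y') = a • (x - x') + b • (y - y') := by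
      rw [smul_sub, smul_sub]
      abel
    rw [h2]
    refine (norm_add_le _ _).trans ?_
    rw [norm_smul, norm_smul, Real.norm_of_nonneg ha, Real.norm_of_nonneg hb, ← dist_eq_norm,
      ← dist_eq_norm]
    calc a * dist x x' + b * dist y y' ≤ a * (ε / 2) + b * (ε / 2) :=
          add_le_add (mul_le_mul_of_nonneg_left hxd.le ha) (mul_le_mul_of_nonneg_left hyd.le hb)
      _ = ε / 2 := by rw [← add_mul, hab, one_mul]
  have h3 := dist_triangle (a • x + b • y) (a • x' + b • y') z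
  have h4 : dist (a • x' + b • y') z < ε / 2 := by
    rw [dist_comm]
    exact hzd
  linarith

theorem closed_T0 : IsClosed {L : NonemptyCompacts P | T0 ⊆ (L : Set P)} := by
  have h : {L : NonemptyCompacts P | T0 ⊆ (L : Set P)} =
      ⋂ x ∈ T0, {L : NonemptyCompacts P | ((L : Set P) ∩ {x}).Nonempty} := by
    ext L
    simp only [mem_iInter, mem_ofPred_eq, inter_singleton_nonempty]
    exact Iff.rfl
  rw [h]
  exact isClosed_biInter fun x _ =>
    NonemptyCompacts.isClosed_inter_nonempty_of_isClosed isClosed_singleton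

theorem t_CPT (h : S_LOC) : S_CPT := by
  have hK : IsCompact {L : NonemptyCompacts P | (L : Set P) ⊆ Icc ((-1 : ℝ), (-1 : ℝ)) (1, 1)} :=
    NonemptyCompacts.isCompact_subsets_of_isCompact isCompact_Icc
  have hK' := hK.inter_right (closed_T0.inter closed_conv)
  have hind := hK'.induction_on (p := fun s => ∃ c : ℝ, c < √2 ∧ ∀ L ∈ s, Bd (L : Set P) →
    T0 ⊆ (L : Set P) → ∃ a b c' d : P, Ci (L : Set P) a b c' d ∧ ar a b c' d ≤ c * vol (L : Set P))
    ⟨0, Real.sqrt_pos.2 (by norm_num), fun L hL => absurd hL (notMem_empty L)⟩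
    (by
      rintro s t hst ⟨c, hc, hh⟩
      exact ⟨c, hc, fun L hL => hh L (hst hL)⟩)
    (by
      rintro s t ⟨c, hc, hh⟩ ⟨c', hc', hh'⟩
      refine ⟨max c c', max_lt hc hc', ?_⟩
      rintro L (hL | hL) h1 h2
      · obtain ⟨a, b, e, d, h3, h4⟩ := hh L hL h1 h2
        exact ⟨a, b, e, d, h3, h4.trans (mul_le_mul_of_nonneg_right (le_max_left _ _)
          ENNReal.toReal_nonneg)⟩
      · obtain ⟨a, b, e, d, h3, h4⟩ := hh' L hL h1 h2
        exact ⟨a, b, e, d, h3, h4.trans (mul_le_mul_of_nonneg_right (le_max_right _ _)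
          ENNReal.toReal_nonneg)⟩)
    (by
      rintro L ⟨-, hT, hC⟩
      obtain ⟨δ, hδ, c, hc, hh⟩ := h (L : Set P)
        ⟨hC, L.isCompact, int_T0.mono (interior_mono hT)⟩ hT
      refine ⟨Metric.ball L δ, mem_nhdsWithin_of_mem_nhds (Metric.ball_mem_nhds L hδ), c, hc, ?_⟩
      intro L' hL' h1 h2
      refine hh (L' : Set P) h1 h2 ?_
      rw [Metric.mem_ball, dist_comm] at hL'
      exact hL')
  obtain ⟨c, hc, hh⟩ := hind
  refine ⟨c, hc, fun K hB hT hI => ?_⟩
  have hne : K.Nonempty := hB.int.mono interior_subset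
  exact hh ⟨⟨K, hB.comp⟩, hne⟩ ⟨hI, hT, hB.conv⟩ hB hT

end Pool.Agent.N492.CQ
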